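import Mathlib

set_option autoImplicit false

/-!
The Cayley graph of the free abelian group on the vertices of a graph `G` with the connection set
`{e_x - e_y : x y adjacent}`.
-/

namespace Pool.Agent.H65Cay

open Finsupp

variable {V : Type*}

/-- the unit vector -/
noncomputable abbrev e (x : V) : V →₀ ℤ := Finsupp.single x 1

lemma one_eq {a b : V} (h : e a = e b) : a = b := by
  classical
  by_contra hne
  have h1 := DFunLike.congr_fun h a
  simp [Finsupp.single_apply, Ne.symm hne] at h1

lemma two_eq {a b c d : V} (h : e a + e b = e c + e d) : (a = c ∧ b = d) ∨ (a = d ∧ b = c) := by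
  classical
  have h1 := DFunLike.congr_fun h a
  simp only [Finsupp.add_apply, Finsupp.single_apply, if_true] at h1
  by_cases hc : c = a
  · subst hc
    left
    exact ⟨rfl, one_eq (add_left_cancel h)⟩
  · by_cases hd : d = a
    · subst hd
      right
      refine ⟨rfl, one_eq ?_⟩
      rw [add_comm (e c)] at h
      exact add_left_cancel h
    · rw [if_neg hc, if_neg hd] at h1
      split_ifs at h1 <;> omega

/-- the difference determines the arc -/
lemma arc_unique {x y z w : V} (hxy : x ≠ y) (h : e x - e y = e z - e w) : x = z ∧ y = w := by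
  have h1 : e x + e w = e z + e y := by
    have := h
    rw [sub_eq_sub_iff_add_eq_add] at this
    exact this
  rcases two_eq h1 with h2 | h2
  · exact ⟨h2.1, h2.2.symm⟩
  · exact absurd h2.1 hxy

/-- three arcs whose signed sum vanishes -/
lemma triangle {x y z w u v : V} (hzw : z ≠ w) (hxy : x ≠ y) (huv : u ≠ v)
    (h : (e z - e w) - (e x - e y) = e u - e v) :
    (z = x ∧ u = y ∧ v = w) ∨ (w = y ∧ u = z ∧ v = x) := by
  classical
  have h1 : e z + (e y + e v) = e w + (e u + e x) := by
    have h2 : (e z - e w) - (e x - e y) - (e u - e v) = 0 := by rw [h, sub_self]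
    have h3 : e z + (e y + e v) - (e w + (e u + e x)) = 0 := by
      rw [← h2]; abel
    exact sub_eq_zero.1 h3
  by_cases hzx : z = x
  · subst hzx
    left
    have h4 : e y + e v = e w + e u := by
      have h5 : e z + (e y + e v) = e z + (e w + e u) := by rw [h1]; abel
      exact add_left_cancel h5
    rcases two_eq h4 with h6 | h6
    · exact absurd h6.2.symm huv
    · exact ⟨rfl, h6.1.symm, h6.2⟩
  · by_cases hzu : z = u
    · subst hzu
      right
      have h4 : e y + e v = e w + e x := by
        have h5 : e z + (e y + e v) = e z + (e w + e x) := by rw [h1]; abel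
        exact add_left_cancel h5
      rcases two_eq h4 with h6 | h6
      · exact ⟨h6.1.symm, rfl, h6.2⟩
      · exact absurd h6.1.symm hxy
    · exfalso
      have h7 := DFunLike.congr_fun h1 z
      simp only [Finsupp.add_apply, Finsupp.single_apply, if_true] at h7
      rw [if_neg (Ne.symm hzw), if_neg (Ne.symm hzx), if_neg (Ne.symm hzu)] at h7
      split_ifs at h7 <;> omega

/-- the Cayley graph -/
def cay (G : SimpleGraph V) : SimpleGraph (V →₀ ℤ) where
  Adj g h := ∃ x y, G.Adj x y ∧ h - g = e x - e y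
  symm := ⟨by
    rintro g h ⟨x, y, hxy, hgh⟩
    exact ⟨y, x, hxy.symm, by rw [← neg_sub, hgh, neg_sub]⟩⟩
  loopless := ⟨by
    rintro g ⟨x, y, hxy, hgh⟩
    rw [sub_self] at hgh
    exact G.ne_of_adj hxy (one_eq (sub_eq_zero.1 hgh.symm))⟩

lemma cay_adj_add (G : SimpleGraph V) (a g h : V →₀ ℤ) :
    (cay G).Adj (a + g) (a + h) ↔ (cay G).Adj g h := by
  simp only [cay]
  rw [add_sub_add_left_eq_sub]

lemma cay_adj_unit (G : SimpleGraph V) (x y : V) :
    (cay G).Adj (e x) (e y) ↔ G.Adj x y := by
  constructor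
  · rintro ⟨u, v, huv, h⟩
    have hxy : y ≠ x := by
      rintro rfl
      rw [sub_self] at h
      exact G.ne_of_adj huv (one_eq (sub_eq_zero.1 h.symm))
    obtain ⟨rfl, rfl⟩ := arc_unique hxy h
    exact huv.symm
  · intro h
    exact ⟨y, x, h.symm, rfl⟩

/-- a clique of the Cayley graph comes from a clique of `G` -/
lemma cliqueFree_cay (G : SimpleGraph V) {n : ℕ} (hn : 2 ≤ n) :
    (cay G).CliqueFree n ↔ G.CliqueFree n := by
  classical
  constructor
  · intro h
    have hf : G ↪g cay G := ⟨⟨fun x => e x, fun _ _ h => one_eq h⟩, by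
      intro a b
      exact cay_adj_unit G a b⟩
    exact h.comap hf.isContained
  · intro h s hs
    have hcard : s.card = n := hs.card_eq
    have hclq := hs.isClique
    have hne : s.Nonempty := by
      rw [← Finset.card_pos]; omega
    obtain ⟨g₀, hg₀⟩ := hne
    set t := s.erase g₀ with ht
    have htc : t.card = n - 1 := by rw [ht, Finset.card_erase_of_mem hg₀, hcard]
    have hadj : ∀ g ∈ t, ∃ p : V × V, G.Adj p.1 p.2 ∧ g - g₀ = e p.1 - e p.2 := by
      intro g hg
      obtain ⟨hne, hgs⟩ := Finset.mem_erase.1 hg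
      obtain ⟨x, y, hxy, h1⟩ := hclq hg₀ hgs (Ne.symm hne)
      exact ⟨(x, y), hxy, h1⟩
    have : ∃ p : (V →₀ ℤ) → V × V, ∀ g ∈ t, G.Adj (p g).1 (p g).2 ∧
        g - g₀ = e (p g).1 - e (p g).2 := by
      have : ∀ g, ∃ q : V × V, g ∈ t → G.Adj q.1 q.2 ∧ g - g₀ = e q.1 - e q.2 := by
        intro g
        by_cases hg : g ∈ t
        · obtain ⟨q, hq⟩ := hadj g hg
          exact ⟨q, fun _ => hq⟩
        · obtain ⟨g1, hg1⟩ : t.Nonempty := by rw [← Finset.card_pos]; omega
          obtain ⟨q, hq⟩ := hadj g1 hg1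
          exact ⟨q, fun h => absurd h hg⟩
      choose p hp using this
      exact ⟨p, fun g hg => hp g hg⟩
    obtain ⟨p, hp⟩ := this
    have hinj : ∀ g ∈ t, ∀ h ∈ t, (p g).1 = (p h).1 → (p g).2 = (p h).2 → g = h := by
      intro g hg h hh h1 h2
      have e1 := (hp g hg).2
      have e2 := (hp h hh).2
      rw [h1, h2, ← e2] at e1
      exact sub_left_injective e1
    have hpair : ∀ g ∈ t, ∀ h ∈ t, g ≠ h →
        ((p g).1 = (p h).1 ∧ G.Adj (p g).2 (p h).2) ∨
        ((p g).2 = (p h).2 ∧ G.Adj (p g).1 (p h).1) := by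
      intro g hg h hh hgh
      obtain ⟨u, v, huv, h1⟩ := hclq (Finset.mem_of_mem_erase hg) (Finset.mem_of_mem_erase hh) hgh
      have h2 : (e (p h).1 - e (p h).2) - (e (p g).1 - e (p g).2) = e u - e v := by
        rw [← (hp h hh).2, ← (hp g hg).2, ← h1]; abel
      rcases triangle (G.ne_of_adj (hp h hh).1) (G.ne_of_adj (hp g hg).1) (G.ne_of_adj huv) h2
        with ⟨h3, h4, h5⟩ | ⟨h3, h4, h5⟩
      · left
        subst h4 h5
        exact ⟨h3.symm, huv⟩
      · right
        subst h4 h5
        exact ⟨h3.symm, huv.symm⟩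
    obtain ⟨g1, hg1⟩ : t.Nonempty := by rw [← Finset.card_pos]; omega
    have hdich : (∀ g ∈ t, ∀ h ∈ t, (p g).1 = (p h).1) ∨
        (∀ g ∈ t, ∀ h ∈ t, (p g).2 = (p h).2) := by
      by_contra hcon
      push Not at hcon
      obtain ⟨⟨a, ha, b, hb, hab⟩, ⟨c, hc, d, hd, hcd⟩⟩ := hcon
      have key : ∀ r ∈ t, (p r).2 = (p a).2 := by
        have hab2 : (p a).2 = (p b).2 := by
          have hne : a ≠ b := fun h => hab (by rw [h])
          rcases hpair a ha b hb hne with h | h
          · exact absurd h.1 hab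
          · exact h.1
        intro r hr
        by_cases hra : (p r).1 = (p a).1
        · have hrb : (p r).1 ≠ (p b).1 := by rw [hra]; exact hab
          have hne : r ≠ b := fun h => hrb (by rw [h])
          rcases hpair r hr b hb hne with h | h
          · exact absurd h.1 hrb
          · rw [h.1, hab2]
        · have hne : r ≠ a := fun h => hra (by rw [h])
          rcases hpair r hr a ha hne with h | h
          · exact absurd h.1 hra
          · exact h.1
      exact hcd ((key c hc).trans (key d hd).symm)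
    rcases hdich with hd | hd
    · -- all first components agree
      have hinj2 : Set.InjOn (fun g => (p g).2) t := by
        intro g hg h hh h1
        exact hinj g hg h hh (hd g hg h hh) h1
      have hnot : (p g1).1 ∉ t.image (fun g => (p g).2) := by
        intro h1
        obtain ⟨g, hg, h2⟩ := Finset.mem_image.1 h1
        have := G.ne_of_adj (hp g hg).1
        apply this
        rw [hd g hg g1 hg1]
        exact h2.symm
      refine h (insert (p g1).1 (t.image (fun g => (p g).2))) ⟨?_, ?_⟩
      · intro a ha b hb hab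
        rw [Finset.mem_coe, Finset.mem_insert, Finset.mem_image] at ha hb
        rcases ha with rfl | ⟨g, hg, rfl⟩
        · rcases hb with rfl | ⟨h', hh', rfl⟩
          · exact absurd rfl hab
          · rw [hd g1 hg1 h' hh']
            exact (hp h' hh').1
        · rcases hb with rfl | ⟨h', hh', rfl⟩
          · rw [hd g1 hg1 g hg]
            exact (hp g hg).1.symm
          · have hne : g ≠ h' := fun h => hab (by rw [h])
            rcases hpair g hg h' hh' hne with h2 | h2
            · exact h2.2
            · exact absurd h2.1 hab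
      · rw [Finset.card_insert_of_notMem hnot, Finset.card_image_of_injOn hinj2, htc]
        omega
    · have hinj2 : Set.InjOn (fun g => (p g).1) t := by
        intro g hg h hh h1
        exact hinj g hg h hh h1 (hd g hg h hh)
      have hnot : (p g1).2 ∉ t.image (fun g => (p g).1) := by
        intro h1
        obtain ⟨g, hg, h2⟩ := Finset.mem_image.1 h1
        have := G.ne_of_adj (hp g hg).1
        apply this
        rw [hd g hg g1 hg1]
        exact h2
      refine h (insert (p g1).2 (t.image (fun g => (p g).1))) ⟨?_, ?_⟩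
      · intro a ha b hb hab
        rw [Finset.mem_coe, Finset.mem_insert, Finset.mem_image] at ha hb
        rcases ha with rfl | ⟨g, hg, rfl⟩
        · rcases hb with rfl | ⟨h', hh', rfl⟩
          · exact absurd rfl hab
          · rw [hd g1 hg1 h' hh']
            exact (hp h' hh').1.symm
        · rcases hb with rfl | ⟨h', hh', rfl⟩
          · rw [hd g1 hg1 g hg]
            exact (hp g hg).1
          · have hne : g ≠ h' := fun h => hab (by rw [h])
            rcases hpair g hg h' hh' hne with h2 | h2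
            · exact absurd h2.1 hab
            · exact h2.2
      · rw [Finset.card_insert_of_notMem hnot, Finset.card_image_of_injOn hinj2, htc]
        omega

/-- colouring of the Cayley graph -/
theorem exists_coloring_cay (G : SimpleGraph V) (c : V → V → ℕ) (hc : ∀ x y, c x y = c y x)
    (h3 : ∀ x y z, G.Adj x y → G.Adj y z → G.Adj x z → ¬ (c x y = c y z ∧ c y z = c x z)) :
    ∃ d : (V →₀ ℤ) → (V →₀ ℤ) → ℕ, (∀ g h, d g h = d h g) ∧
      ∀ g h k, (cay G).Adj g h → (cay G).Adj h k → (cay G).Adj g k →
        ¬ (d g h = d h k ∧ d h k = d g k) := by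
  classical
  let d : (V →₀ ℤ) → (V →₀ ℤ) → ℕ := fun g h =>
    if H : ∃ p : V × V, p.1 ≠ p.2 ∧ h - g = e p.1 - e p.2 then c H.choose.1 H.choose.2 else 0
  have hd : ∀ g h x y, x ≠ y → h - g = e x - e y → d g h = c x y := by
    intro g h x y hxy h1
    have H : ∃ p : V × V, p.1 ≠ p.2 ∧ h - g = e p.1 - e p.2 := ⟨(x, y), hxy, h1⟩
    have h2 : d g h = c H.choose.1 H.choose.2 := by simp only [d]; rw [dif_pos H]
    obtain ⟨h4, h5⟩ := arc_unique H.choose_spec.1 (H.choose_spec.2.symm.trans h1)
    rw [h2, h4, h5]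
  refine ⟨d, ?_, ?_⟩
  · intro g h
    by_cases H : ∃ p : V × V, p.1 ≠ p.2 ∧ h - g = e p.1 - e p.2
    · obtain ⟨⟨x, y⟩, hxy, h1⟩ := H
      rw [hd g h x y hxy h1, hd h g y x (Ne.symm hxy) (by rw [← neg_sub, h1, neg_sub]), hc]
    · have H' : ¬ ∃ p : V × V, p.1 ≠ p.2 ∧ g - h = e p.1 - e p.2 := by
        rintro ⟨⟨x, y⟩, hxy, h1⟩
        exact H ⟨(y, x), Ne.symm hxy, by rw [← neg_sub, h1, neg_sub]⟩
      have a1 : d g h = 0 := by simp only [d]; rw [dif_neg H]
      have a2 : d h g = 0 := by simp only [d]; rw [dif_neg H']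
      rw [a1, a2]
  · rintro g h k ⟨x, y, hxy, e1⟩ ⟨u, v, huv, e2⟩ ⟨z, w, hzw, e3⟩ hcon
    rw [hd g h x y (G.ne_of_adj hxy) e1, hd h k u v (G.ne_of_adj huv) e2,
      hd g k z w (G.ne_of_adj hzw) e3] at hcon
    have h2 : (e z - e w) - (e x - e y) = e u - e v := by
      rw [← e1, ← e2, ← e3]; abel
    rcases triangle (G.ne_of_adj hzw) (G.ne_of_adj hxy) (G.ne_of_adj huv) h2
      with ⟨a1, a2, a3⟩ | ⟨a1, a2, a3⟩
    · subst a1 a2 a3
      exact h3 z u v hxy huv hzw hcon
    · subst a1 a2 a3
      -- `x = v`, `y = w`, `z = u` : triangle `v w u`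
      refine h3 w v u hxy.symm huv.symm hzw.symm ⟨?_, ?_⟩
      · rw [hc w v, hc v u]; exact hcon.1
      · rw [hc v u, hc w u]; exact hcon.2

end Pool.Agent.H65Cay
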